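import Pool.Agent.Helper53.AE.GoalsA

/-!
Packet AE-EXF (MP_8130e1_an): exact containment of a finite-dimensional algebra.
-/

set_option autoImplicit false

open scoped ComplexOrder Topology
open Filter TopologicalSpace
open Pool.Agent.Helper53.AE

namespace Pool.Agent.Helper73.AE

theorem norm_pj {N : Type} [NonUnitalCStarAlgebra N] {p : N} (hp : Pj p) : ‖p‖ ≤ 1 := by
  have h := CStarRing.norm_star_mul_self (x := p)
  rw [hp.1, hp.2] at h
  by_contra h2
  push Not at h2
  nlinarith [norm_nonneg p]

theorem norm_pi {N : Type} [NonUnitalCStarAlgebra N] {v p : N} (h : star v * v = p) (hp : Pj p) :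
    ‖v‖ ≤ 1 := by
  have h1 := CStarRing.norm_star_mul_self (x := v)
  rw [h] at h1
  have h2 := norm_pj hp
  by_contra h3
  push Not at h3
  nlinarith [norm_nonneg v]

theorem mul_pj {N : Type} [NonUnitalCStarAlgebra N] {v p : N} (h : star v * v = p) (hp : Pj p) :
    v * p = v := by
  have h1 : star (v * p - v) * (v * p - v) = 0 := by
    rw [star_sub, star_mul, hp.1, sub_mul, mul_sub, mul_sub]
    have h2 : p * star v * (v * p) = p := by
      rw [← mul_assoc, mul_assoc p, h, hp.2, hp.2]
    have h3 : p * star v * v = p := by rw [mul_assoc, h, hp.2]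
    have h4 : star v * (v * p) = p := by rw [← mul_assoc, h, hp.2]
    rw [h2, h3, h4, h, sub_self]
  exact sub_eq_zero.1 ((CStarRing.star_mul_self_eq_zero_iff _).1 h1)

theorem isClosed_fd {N : Type} [NonUnitalCStarAlgebra N] (F : NonUnitalStarSubalgebra ℂ N)
    (h : FiniteDimensional ℂ F) : IsClosed (F : Set N) := by
  have : FiniteDimensional ℂ F.toNonUnitalSubalgebra.toSubmodule := h
  exact F.toNonUnitalSubalgebra.toSubmodule.closed_of_finiteDimensional

/-- conjugation of a subalgebra by a unitary. -/
def conj {C : Type} [CStarAlgebra C] (w : C) (hw : star w * w = 1)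
    (F : NonUnitalStarSubalgebra ℂ C) : NonUnitalStarSubalgebra ℂ C where
  carrier := {a | w * a * star w ∈ F}
  add_mem' := by
    intro a b ha hb
    show w * (a + b) * star w ∈ F
    rw [mul_add, add_mul]
    exact add_mem ha hb
  zero_mem' := by
    show w * 0 * star w ∈ F
    rw [mul_zero, zero_mul]
    exact zero_mem F
  mul_mem' := by
    intro a b ha hb
    show w * (a * b) * star w ∈ F
    have h : w * (a * b) * star w = (w * a * star w) * (w * b * star w) := by
      have h2 : (w * a * star w) * (w * b * star w) = w * a * (star w * w) * (b * star w) := by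
        noncomm_ring
      rw [h2, hw]
      noncomm_ring
    rw [h]
    exact mul_mem ha hb
  smul_mem' := by
    intro c a ha
    show w * (c • a) * star w ∈ F
    rw [mul_smul_comm, smul_mul_assoc]
    exact SMulMemClass.smul_mem c ha
  star_mem' := by
    intro a ha
    show w * star a * star w ∈ F
    have h : w * star a * star w = star (w * a * star w) := by
      rw [star_mul, star_mul, star_star, mul_assoc]
    rw [h]
    exact star_mem ha

theorem mem_conj {C : Type} [CStarAlgebra C] {w : C} {hw : star w * w = 1}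
    {F : NonUnitalStarSubalgebra ℂ C} {a : C} : a ∈ conj w hw F ↔ w * a * star w ∈ F := Iff.rfl

theorem conj_fd {C : Type} [CStarAlgebra C] (w : C) (hw : star w * w = 1)
    (F : NonUnitalStarSubalgebra ℂ C) (hF : FiniteDimensional ℂ F) :
    FiniteDimensional ℂ (conj w hw F) := by
  have hl : ∀ a : conj w hw F, w * (a : C) * star w ∈ F := fun a => a.2
  let f : conj w hw F →ₗ[ℂ] F :=
    { toFun := fun a => ⟨w * (a : C) * star w, hl a⟩
      map_add' := fun a b => Subtype.ext (by
        show w * ((a : C) + (b : C)) * star w = w * (a : C) * star w + w * (b : C) * star w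
        rw [mul_add, add_mul])
      map_smul' := fun c a => Subtype.ext (by
        show w * (c • (a : C)) * star w = c • (w * (a : C) * star w)
        rw [mul_smul_comm, smul_mul_assoc]) }
  refine FiniteDimensional.of_injective f ?_
  intro a b hab
  have h1 : w * (a : C) * star w = w * (b : C) * star w := congrArg Subtype.val hab
  apply Subtype.ext
  have h2 : ∀ c : C, star w * (w * c * star w) * w = c := by
    intro c
    have h3 : star w * (w * c * star w) * w = (star w * w) * c * (star w * w) := by noncomm_ring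
    rw [h3, hw, one_mul, mul_one]
  rw [← h2 a, h1, h2]

/-- **AE-EXF**. -/
theorem t (hMU1 : S_MU1) (hPRX : S_PRX) (hPOL : S_POL) : S_EXF := by
  classical
  intro C _ hLAF F₁ hF₁ h1F S ε hε
  obtain ⟨m, b, e, hM, hsp, hun⟩ := hMU1 C F₁ hF₁
  have hsum : ∑ x, e x x = 1 := by
    have h := (hun 1 h1F).1
    rwa [mul_one] at h
  have hee : ∀ x, Pj (e x x) := fun x => ⟨hM.star x x, hM.mul x x x rfl rfl⟩
  set K : ℝ := ∑ x ∈ S, ‖x‖ with hK
  have hK0 : 0 ≤ K := Finset.sum_nonneg fun _ _ => norm_nonneg _
  have hKx : ∀ x ∈ S, ‖x‖ ≤ K := fun x hx =>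
    Finset.single_le_sum (f := fun x => ‖x‖) (fun _ _ => norm_nonneg _) hx
  have hden : (0 : ℝ) < 16 * m * K + 2 := by positivity
  set η : ℝ := min (1 / 32) (ε / (16 * m * K + 2)) with hη
  have hη0 : 0 < η := lt_min (by norm_num) (div_pos hε hden)
  have hη1 : η ≤ 1 / 32 := min_le_left _ _
  have hη2 : 16 * m * K * η + η < ε := by
    have h : η * (16 * m * K + 2) ≤ ε := by
      have h2 : η ≤ ε / (16 * m * K + 2) := min_le_right _ _
      rwa [le_div_iff₀ hden] at h2
    nlinarith
  obtain ⟨F', hF'fd, -, heF', happ⟩ := hPRX C ⊤ ⟨by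
      have : ((⊤ : NonUnitalStarSubalgebra ℂ C) : Set C) = Set.univ := rfl
      rw [this]; exact isClosed_univ, fun _ _ _ => ⟨trivial, trivial⟩⟩ hLAF m
    (fun x => e x x) (fun i => ⟨trivial, hee i⟩) (fun i j hij => hM.orth i i j j hij)
    (S ∪ (Finset.univ.image fun p : Fin m × Fin m => e p.1 p.2)) η (fun _ _ => trivial) hη0
  have hF'cl : IsClosed (F' : Set C) := isClosed_fd F' hF'fd
  have hv : ∀ x : Fin m, ∃ v' ∈ F', star v' * v' = e (b x) (b x) ∧ v' * star v' = e x x ∧
      ‖v' - e x (b x)‖ ≤ 8 * η := by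
    intro x
    obtain ⟨y, hy, hyn⟩ := happ (e x (b x)) (Finset.mem_union_right _
      (Finset.mem_image.2 ⟨(x, b x), Finset.mem_univ _, rfl⟩))
    refine hPOL C F' hF'cl (e (b x) (b x)) (e x x) (e x (b x)) y η (heF' (b x)) (heF' x)
      (hee _) (hee _) ?_ ?_ hy ?_ hη1
    · rw [hM.star]
      exact hM.mul _ _ _ (hM.root x) (hM.root x).symm
    · rw [hM.star]
      exact hM.mul _ _ _ (hM.root x).symm (hM.root x)
    · rw [norm_sub_rev]
      exact hyn.le
  choose v hvF hv1 hv2 hv3 using hv
  have hvp : ∀ x, v x * e (b x) (b x) = v x := fun x => mul_pj (hv1 x) (hee _)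
  have hvq : ∀ x, e x x * v x = v x := by
    intro x
    rw [← hv2, mul_assoc, hv1, hvp]
  have hvq' : ∀ x, star (v x) * e x x = star (v x) := by
    intro x
    have h := congrArg star (hvq x)
    rwa [star_mul, hM.star] at h
  have hvv : ∀ x y, x ≠ y → star (v x) * v y = 0 := by
    intro x y hxy
    rw [← hvq' x, ← hvq y, mul_assoc, ← mul_assoc (e x x), hM.orth x x y y hxy, zero_mul,
      mul_zero]
  set w : C := ∑ x, v x * e (b x) x with hw
  have hsw : star w = ∑ x, e x (b x) * star (v x) := by
    rw [hw, star_sum]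
    refine Finset.sum_congr rfl fun x _ => ?_
    rw [star_mul, hM.star]
  have hww : star w * w = 1 := by
    rw [hsw, hw, Finset.sum_mul, ← hsum]
    refine Finset.sum_congr rfl fun x _ => ?_
    rw [Finset.mul_sum, Finset.sum_eq_single x]
    · rw [mul_assoc, ← mul_assoc (star (v x)), hv1, hM.mul (b x) (b x) x rfl (hM.root x),
        hM.mul _ _ _ (hM.root x).symm (hM.root x)]
    · intro y _ hy
      rw [mul_assoc, ← mul_assoc (star (v x)), hvv x y (Ne.symm hy), zero_mul, mul_zero]
    · intro h
      exact absurd (Finset.mem_univ x) h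
  have hww' : w * star w = 1 := by
    rw [hsw, hw, Finset.sum_mul, ← hsum]
    refine Finset.sum_congr rfl fun x _ => ?_
    rw [Finset.mul_sum, Finset.sum_eq_single x]
    · rw [mul_assoc, ← mul_assoc (e (b x) x), hM.mul _ _ _ (hM.root x) (hM.root x).symm,
        ← mul_assoc, hvp, hv2]
    · intro y _ hy
      rw [mul_assoc, ← mul_assoc (e (b x) x), hM.orth _ _ _ _ (Ne.symm hy), zero_mul, mul_zero]
    · intro h
      exact absurd (Finset.mem_univ x) h
  have hw1 : ‖w - 1‖ ≤ 8 * m * η := by
    have h : w - 1 = ∑ x, (v x - e x (b x)) * e (b x) x := by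
      have h2 : (1 : C) = ∑ x, e x (b x) * e (b x) x := by
        rw [← hsum]
        refine Finset.sum_congr rfl fun x _ => ?_
        rw [hM.mul _ _ _ (hM.root x).symm (hM.root x)]
      rw [h2, hw, ← Finset.sum_sub_distrib]
      refine Finset.sum_congr rfl fun x _ => ?_
      rw [sub_mul]
    rw [h]
    have h3 : ∀ x ∈ (Finset.univ : Finset (Fin m)),
        ‖(v x - e x (b x)) * e (b x) x‖ ≤ 8 * η := by
      intro x _
      have h4 : ‖e (b x) x‖ ≤ 1 := by
        refine norm_pi (p := e x x) ?_ (hee x)
        rw [hM.star]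
        exact hM.mul _ _ _ (hM.root x).symm (hM.root x)
      calc ‖(v x - e x (b x)) * e (b x) x‖ ≤ ‖v x - e x (b x)‖ * ‖e (b x) x‖ := norm_mul_le _ _
        _ ≤ (8 * η) * 1 := mul_le_mul (hv3 x) h4 (norm_nonneg _) (by positivity)
        _ = 8 * η := mul_one _
    refine (norm_sum_le_of_le _ h3).trans ?_
    rw [Finset.sum_const, Finset.card_univ, Fintype.card_fin, nsmul_eq_mul]
    nlinarith
  have hwn : ‖w‖ ≤ 1 := norm_pi hww ⟨star_one C, one_mul 1⟩
  have hwn' : ‖star w‖ ≤ 1 := by rw [norm_star]; exact hwn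
  refine ⟨conj w hww F', conj_fd w hww F' hF'fd, ?_, ?_⟩
  · intro a ha
    have ha' : a ∈ spn e := (hsp a).1 ha
    have hle : spn e ≤ (conj w hww F').toNonUnitalSubalgebra.toSubmodule := by
      refine Submodule.span_le.2 ?_
      rintro _ ⟨⟨x, y⟩, rfl⟩
      show w * e x y * star w ∈ F'
      by_cases hxy : b x = b y
      · have h5 : w * e x y = v x * e (b x) y := by
          rw [hw, Finset.sum_mul, Finset.sum_eq_single x]
          · rw [mul_assoc, hM.mul _ _ _ (hM.root x) hxy]
          · intro z _ hz
            rw [mul_assoc, hM.orth _ _ _ _ hz, mul_zero]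
          · intro h
            exact absurd (Finset.mem_univ x) h
        have h6 : e (b x) y * star w = e (b x) (b x) * star (v y) := by
          rw [hsw, Finset.mul_sum, Finset.sum_eq_single y]
          · rw [← mul_assoc, hM.mul _ _ _ ((hM.root x).trans hxy) (hM.root y).symm, hxy]
          · intro z _ hz
            rw [← mul_assoc, hM.orth _ _ _ _ (Ne.symm hz), zero_mul]
          · intro h
            exact absurd (Finset.mem_univ y) h
        rw [h5, mul_assoc, h6, ← mul_assoc, hvp]
        exact mul_mem (hvF x) (star_mem (hvF y))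
      · rw [hM.zero x y hxy, mul_zero, zero_mul]
        exact zero_mem F'
    exact hle ha'
  · intro x hx
    obtain ⟨y, hy, hyn⟩ := happ x (Finset.mem_union_left _ hx)
    refine ⟨star w * y * w, ?_, ?_⟩
    · show w * (star w * y * w) * star w ∈ F'
      have h : w * (star w * y * w) * star w = (w * star w) * y * (w * star w) := by
        noncomm_ring
      rw [h, hww', one_mul, mul_one]
      exact hy
    · have h7 : x - star w * y * w
          = star w * ((w - 1) * x - x * (w - 1)) + star w * (x - y) * w := by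
        have h8 : star w * ((w - 1) * x - x * (w - 1)) + star w * (x - y) * w
            = (star w * w) * x - star w * y * w := by noncomm_ring
        rw [h8, hww, one_mul]
      rw [h7]
      have h9 : ‖star w * ((w - 1) * x - x * (w - 1))‖ ≤ 2 * (8 * m * η) * K := by
        calc ‖star w * ((w - 1) * x - x * (w - 1))‖
            ≤ ‖star w‖ * ‖(w - 1) * x - x * (w - 1)‖ := norm_mul_le _ _
          _ ≤ 1 * (‖w - 1‖ * ‖x‖ + ‖x‖ * ‖w - 1‖) := by
              refine mul_le_mul hwn' ?_ (norm_nonneg _) zero_le_one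
              exact (norm_sub_le _ _).trans (add_le_add (norm_mul_le _ _) (norm_mul_le _ _))
          _ = 2 * ‖w - 1‖ * ‖x‖ := by ring
          _ ≤ 2 * (8 * m * η) * K := by
              refine mul_le_mul (by linarith) (hKx x hx) (norm_nonneg _) (by positivity)
      have h10 : ‖star w * (x - y) * w‖ < η := by
        calc ‖star w * (x - y) * w‖ ≤ ‖star w * (x - y)‖ * ‖w‖ := norm_mul_le _ _
          _ ≤ (‖star w‖ * ‖x - y‖) * ‖w‖ :=
              mul_le_mul_of_nonneg_right (norm_mul_le _ _) (norm_nonneg _)
          _ ≤ (1 * ‖x - y‖) * 1 := by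
              refine mul_le_mul ?_ hwn (norm_nonneg _) (by positivity)
              exact mul_le_mul_of_nonneg_right hwn' (norm_nonneg _)
          _ = ‖x - y‖ := by ring
          _ < η := hyn
      calc ‖star w * ((w - 1) * x - x * (w - 1)) + star w * (x - y) * w‖
          ≤ ‖star w * ((w - 1) * x - x * (w - 1))‖ + ‖star w * (x - y) * w‖ := norm_add_le _ _
        _ < 2 * (8 * m * η) * K + η := add_lt_add_of_le_of_lt h9 h10
        _ = 16 * m * K * η + η := by ring
        _ < ε := hη2

end Pool.Agent.Helper73.AE
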